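import Pool.Agent.H44.AR.BasicA

/-!
# All reducts, all arities, row CR2: the colours of the pairs of values
-/

set_option autoImplicit false
set_option linter.unusedVariables false

namespace Pool.Agent.H54.AR

open Pool.Agent.H68.BP Pool.Agent.H58.SF Pool.Agent.H53.GC Pool.Agent.H53.NR Pool.Agent.H53.GR
open Pool.Agent.H57.AR Pool.Agent.H44.AR
open Pool.Agent.H57.SO (Pal Col vt Sb FBl)
open Pool.Agent.H57.EQ (Cx)

section
variable {V S X W Z : Type} {σ ρ : Sig}

private theorem pair_eta {A B : Type} (f : A → B) (a b : A) :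
    (fun i : Fin 2 => f (![a, b] i)) = ![f a, f b] := by
  funext i
  fin_cases i <;> rfl

/-- equal types give equal colours -/
private theorem link {P : Pal S X} {𝔹 : Str ρ V} {c : V → V → S ⊕ X} (hL : Lnk P 𝔹 c)
    {x y x' y' : V} (h : tp 𝔹 ![x, y] = tp 𝔹 ![x', y']) : c x y = c x' y' := by
  rw [hL.eq]
  refine ⟨iff_of_eq (congrFun (congrFun (congrArg Prod.fst h) 0) 1), fun l f => ?_⟩
  have h1 := congrFun (congrFun (congrArg Prod.snd h) l) (fun i => if f i then 1 else 0)
  have h2 : ∀ u v : V, (pull 𝔹 ![u, v] l (fun i => if f i then 1 else 0)) =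
      𝔹 l (fun i => if f i then v else u) := by
    intro u v
    show 𝔹 l (fun i => ![u, v] (if f i then 1 else 0)) = _
    congr 1
    funext i
    by_cases hf : f i = true
    · simp [hf]
    · simp [hf]
  change pull 𝔹 ![x, y] l (fun i => if f i then 1 else 0) =
    pull 𝔹 ![x', y'] l (fun i => if f i then 1 else 0) at h1
  rw [h2, h2] at h1
  exact iff_of_eq h1

end

/-- **CR2.** -/
theorem pf_CR2 : T_CR2 := by
  intro σ ρ V S X _ 𝔸 𝔹 M hU P c hL h' hC hE
  have hex : ∀ v w : Fin 6 → V, ∃ x y : V, tp 𝔹 ![x, y] = pullT h' ![v, w] := by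
    intro v w
    obtain ⟨ψ, -, h2⟩ := hC.comb (Fin 2) (fun i a => ![v, w] a i)
    refine ⟨ψ 0, ψ 1, ?_⟩
    have h3 : ψ = ![ψ 0, ψ 1] := by
      funext i
      fin_cases i <;> rfl
    rw [← h3, h2]
  choose a b hab using hex
  have hlk : ∀ (v w : Fin 6 → V) (x y : V), tp 𝔹 ![x, y] = pullT h' ![v, w] →
      c x y = c (a v w) (b v w) := fun v w x y h => link hL (h.trans (hab v w).symm)
  have hdep : ∀ v w v' w' : Fin 6 → V, pullT h' ![v, w] = pullT h' ![v', w'] →
      c (a v w) (b v w) = c (a v' w') (b v' w') := fun v w v' w' h =>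
    hlk v' w' _ _ ((hab v w).trans h)
  refine ⟨fun v w => c (a v w) (b v w), ⟨?_, ?_⟩, ?_, hlk, fun v w => ⟨_, _, hab v w⟩⟩
  · intro v w v' w' h
    refine hdep _ _ _ _ (hC.tinv 2 ![v, w] ![v', w'] ?_)
    rw [sameTp_iff] at h ⊢
    have h1 := tpo_comp h (fun q : Fin 2 × Fin 6 =>
      (![Sum.inl q.2, Sum.inr q.2] : Fin 2 → Fin 6 ⊕ Fin 6) q.1)
    have h2 : ∀ v w : Fin 6 → V, (fun q : Fin 2 × Fin 6 => Sum.elim v w
        ((![Sum.inl q.2, Sum.inr q.2] : Fin 2 → Fin 6 ⊕ Fin 6) q.1)) =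
        fun q => ![v, w] q.1 q.2 := by
      intro v w
      funext ⟨i, j⟩
      fin_cases i <;> rfl
    rwa [h2, h2] at h1
  · intro W _ G
    obtain ⟨ψ, h1, h2⟩ := hC.comb W G
    refine ⟨ψ, h1, fun u w => hlk _ _ _ _ ?_⟩
    have h3 := congrArg (fun t => pullT t ![u, w]) h2
    have h4 : pullT (tp 𝔹 ψ) ![u, w] = tp 𝔹 (fun i => ψ (![u, w] i)) := rfl
    have h5 : pullT (pullT h' (fun w i => G i w)) ![u, w] =
        pullT h' (fun k => (fun w i => G i w) (![u, w] k)) := rfl
    rw [pair_eta ψ] at h4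
    rw [pair_eta (fun w i => G i w)] at h5
    rw [← h4, ← h5]
    exact h3
  · intro r x y x' y'
    refine hdep _ _ _ _ ?_
    have h3 := congrArg (fun t => pullT t ![(x, y), (x', y')]) (hE r)
    have h4 : ∀ r : Fin 3, pullT (pullT h' (fun p : V × V => pat r p.1 p.2))
        ![(x, y), (x', y')] = pullT h' ![pat r x y, pat r x' y'] := by
      intro r
      have h5 : pullT (pullT h' (fun p : V × V => pat r p.1 p.2)) ![(x, y), (x', y')] =
        pullT h' (fun k => (fun p : V × V => pat r p.1 p.2) (![(x, y), (x', y')] k)) := rfl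
      rw [h5, pair_eta (fun p : V × V => pat r p.1 p.2)]
    rw [← h4, ← h4]
    exact h3

end Pool.Agent.H54.AR
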