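import Pool.Agent.H57.AR.Targets
import Pool.Agent.H44.SO.Basic

/-!
# All reducts, all arities, board `ar_modules`, row CABR: canonization of behaviours
-/

set_option autoImplicit false
set_option linter.unusedVariables false

namespace Pool.Agent.H54.AR.CABR

open Pool.Agent.H68.BP Pool.Agent.H58.SF Pool.Agent.H53.GC Pool.Agent.H53.NR Pool.Agent.H53.GR
open Pool.Agent.H57.SO (Pal Col vt Bh)
open Pool.Agent.H57.EQ (Cx)
open Pool.Agent.H57.AR
open Function Classical

section

variable {V S X W : Type} {ρ σ : Sig}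

/-- equal types give equal colours -/
theorem col_of_tp {P : Pal S X} {𝔹 : Str ρ V} {c : V → V → S ⊕ X} (hL : Lnk P 𝔹 c)
    {x y : W → V} (h : tp 𝔹 x = tp 𝔹 y) (a b : W) : c (x a) (x b) = c (y a) (y b) := by
  refine (hL.eq _ _ _ _).2 ⟨?_, fun l f => ?_⟩
  · exact iff_of_eq (congrFun (congrFun (congrArg Prod.fst h) a) b)
  · have h1 := congrFun (congrFun (congrArg Prod.snd h) l) (fun i => if f i then b else a)
    have h2 : ∀ u : W → V, (fun i => u (if f i then b else a)) =
        fun i => if f i then u b else u a := by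
      intro u
      funext i
      by_cases hf : f i <;> simp [hf]
    have h3 : ∀ u : W → V, (tp 𝔹 u).2 l (fun i => if f i then b else a) =
        𝔹 l (fun i => if f i then u b else u a) := by
      intro u
      show 𝔹 l (fun i => u (if f i then b else a)) = _
      rw [h2]
    exact iff_of_eq ((h3 x).symm.trans (h1.trans (h3 y)))

/-- equality of the types from equality with the order -/
theorem tp_of_same [LinearOrder V] {𝔹 : Str ρ V} {x y : W → V} (h : SameTp 𝔹 x y) :
    tp 𝔹 x = tp 𝔹 y := by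
  refine Prod.ext ?_ h.2
  funext a b
  refine propext ⟨fun e => ?_, fun e => ?_⟩
  · exact le_antisymm (not_lt.1 fun h1 => (not_lt.2 (le_of_eq e) ((h.1 b a).2 h1)).elim)
      (not_lt.1 fun h1 => (not_lt.2 (le_of_eq e.symm) ((h.1 a b).2 h1)).elim)
  · exact le_antisymm (not_lt.1 fun h1 => (not_lt.2 (le_of_eq e) ((h.1 b a).1 h1)).elim)
      (not_lt.1 fun h1 => (not_lt.2 (le_of_eq e.symm) ((h.1 a b).1 h1)).elim)

end

theorem pf_CABR (hGENR : T_GENR) (hCANR : T_CANR) : T_CABR := by
  intro σ ρ V S X _ P 𝔸 𝔹 M c hs I _ τ κ hκ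
  have hL := hs.lnk
  have hc := hL.col
  obtain ⟨H, h, hH1, hH2, hH3⟩ := hCANR σ ρ V S X P 𝔸 𝔹 M c hs I
    (fun v w y => ((∃ s, y = Sum.inl s) ↔ κ (fun i => vt P c (v i)) (fun i => vt P c (w i))
      {i | v i = w i}) ∧ (v = w → y = Sum.inl (τ (fun i => vt P c (v i))))) (by
      intro v w v' w' y hsame hR
      have ht := tp_of_same hsame
      have he : ∀ i, v i = w i ↔ v' i = w' i := fun i =>
        iff_of_eq (congrFun (congrFun (congrArg Prod.fst ht) (Sum.inl i)) (Sum.inr i))
      have hv : (fun i => vt P c (v i)) = fun i => vt P c (v' i) := by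
        funext i
        have h1 : c (v i) (v i) = c (v' i) (v' i) := col_of_tp hL ht (Sum.inl i) (Sum.inl i)
        rw [vt, vt, h1]
      have hw : (fun i => vt P c (w i)) = fun i => vt P c (w' i) := by
        funext i
        have h1 : c (w i) (w i) = c (w' i) (w' i) := col_of_tp hL ht (Sum.inr i) (Sum.inr i)
        rw [vt, vt, h1]
      have hA : {i | v i = w i} = {i | v' i = w' i} := Set.ext he
      rw [← hv, ← hw, ← hA]
      exact ⟨hR.1, fun h => hR.2 (funext fun i => (he i).2 (congrFun h i))⟩) (by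
      intro W _ G hinj
      obtain ⟨ψ, h1, h2, h3⟩ := hκ W G
      refine ⟨ψ, h1, fun u w => ⟨?_, fun huw => ?_⟩⟩
      · rw [hc.eq_iff, h3 u w]
      · have h4 : u = w := hinj u w fun i => congrFun huw i
        subst h4
        rw [Pool.Agent.H44.SO.Col.vt hc, h2])
  obtain ⟨rk, hrk⟩ : ∃ rk : I → ℕ, Injective rk :=
    ⟨fun i => (Finite.equivFin I i).val, fun a b hab => (Finite.equivFin I).injective (Fin.ext hab)⟩
  let ex : (k : ℕ) → (I → OT ρ (Fin k)) → Prop := fun k t => ∃ z : Fin k → I → V,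
    ZonR 𝔹 rk (fun i a => z a i) ∧ ∀ i, t i = tpo 𝔹 (fun a => z a i)
  let Ψ : (k : ℕ) → (I → OT ρ (Fin k)) → OT ρ (Fin k) := fun k t =>
    if h : ex k t then pullO H h.choose else (fun _ _ => False, fun _ _ => False)
  have hΨ : ∀ (k : ℕ) (z : Fin k → I → V), ZonR 𝔹 rk (fun i a => z a i) →
      Ψ k (fun i => tpo 𝔹 (fun a => z a i)) = pullO H z := by
    intro k z hz
    have h0 : ex k (fun i => tpo 𝔹 (fun a => z a i)) := ⟨z, hz, fun i => rfl⟩
    have h1 : Ψ k (fun i => tpo 𝔹 (fun a => z a i)) = pullO H h0.choose := dif_pos h0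
    rw [h1]
    obtain ⟨h2, h3⟩ := h0.choose_spec
    obtain ⟨z', hz'⟩ : ∃ z', z' = h0.choose := ⟨_, rfl⟩
    rw [← hz'] at h2 h3 ⊢
    have hord : ∀ i a b, (z a i < z b i) = (z' a i < z' b i) := fun i a b =>
      congrFun (congrFun (congrArg Prod.snd (h3 i)) a) b
    have hrel : ∀ i l (s : Fin (ρ.ar l) → Fin k), 𝔹 l (fun m => z (s m) i) =
        𝔹 l (fun m => z' (s m) i) := fun i l s =>
      congrFun (congrFun (congrArg Prod.fst (h3 i)) l) s
    refine (hH1 k z' z ⟨?_, ?_⟩).1
    · rintro ⟨a, i⟩ ⟨b, j⟩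
      show z' a i < z' b j ↔ z a i < z b j
      rcases lt_trichotomy (rk i) (rk j) with h4 | h4 | h4
      · exact ⟨fun _ => hz.1 i j a b h4, fun _ => h2.1 i j a b h4⟩
      · obtain rfl := hrk h4
        rw [hord]
      · exact ⟨fun h5 => absurd h5 (lt_asymm (h2.1 j i b a h4)),
          fun h5 => absurd h5 (lt_asymm (hz.1 j i b a h4))⟩
    · funext l s
      have hpos : 0 < ρ.ar l := (hs.base.ar l).1
      refine propext ⟨fun h4 => ?_, fun h4 => ?_⟩
      · have h5 := h2.2 l (fun m => ((s m).2, (s m).1)) h4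
        have h6 : s = fun m => ((s m).1, (s ⟨0, hpos⟩).2) := by
          funext m
          exact Prod.ext rfl (h5 m ⟨0, hpos⟩)
        rw [h6] at h4 ⊢
        exact (iff_of_eq (hrel (s ⟨0, hpos⟩).2 l fun m => (s m).1)).2 h4
      · have h5 := hz.2 l (fun m => ((s m).2, (s m).1)) h4
        have h6 : s = fun m => ((s m).1, (s ⟨0, hpos⟩).2) := by
          funext m
          exact Prod.ext rfl (h5 m ⟨0, hpos⟩)
        rw [h6] at h4 ⊢
        exact (iff_of_eq (hrel (s ⟨0, hpos⟩).2 l fun m => (s m).1)).1 h4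
  refine ⟨Ψ, fun W _ G => ?_⟩
  obtain ⟨G', h1, h2⟩ := hGENR σ ρ V S X P 𝔸 𝔹 M c hs I W rk hrk G
  obtain ⟨ψ, hψ1, hψ2, hψ3⟩ := hH3 W G'
  have hcol : ∀ i u w, c (G' i u) (G' i w) = c (G i u) (G i w) := fun i u w =>
    col_of_tp hL (h1 i).1 u w
  have hty : ∀ i w, vt P c (G' i w) = vt P c (G i w) := by
    intro i w
    rw [vt, vt, hcol i w w]
  have heq : ∀ i u w, G' i u = G' i w ↔ G i u = G i w := fun i u w =>
    iff_of_eq (congrFun (congrFun (congrArg Prod.fst (h1 i).1) u) w)
  refine ⟨ψ, fun l z hz => ?_, fun w => ?_, fun u w => ?_, fun k z => ?_⟩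
  · refine hψ1 l z fun i => hs.base.tyi l _ _ (hz i) ?_
    refine Prod.ext ?_ ?_
    · funext a b
      exact congrFun (congrFun (congrArg Prod.fst (h1 i).1) (z a)) (z b)
    · funext l' s
      exact congrFun (congrFun (congrArg Prod.snd (h1 i).1) l') (fun m => z (s m))
  · have h3 := (hH2 (fun i => G' i w) (fun i => G' i w)).2 rfl
    rw [← hψ3 w w] at h3
    apply Pool.Agent.H44.SO.vt_of
    refine Eq.trans h3 ?_
    simp only [hty]
  · have h3 := (hH2 (fun i => G' i u) (fun i => G' i w)).1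
    rw [← hψ3 u w] at h3
    simp only [hty, heq] at h3
    rw [← h3]
    exact (hc.eq_iff _ _).symm
  · have h3 : tpo 𝔹 (fun a => ψ (z a)) = pullO H (fun a i => G' i (z a)) :=
      congrArg (fun t => pullO t z) hψ2
    rw [h3, ← hΨ k (fun a i => G' i (z a)) ⟨fun i j a b hij => h2.1 i j _ _ hij,
      fun l s hl a b => h2.2 l (fun m => ((s m).1, z (s m).2)) hl a b⟩]
    refine congrArg (Ψ k) (funext fun i => ?_)
    refine Prod.ext ?_ ?_
    · funext l s
      exact congrFun (congrFun (congrArg Prod.snd (h1 i).1) l) (fun m => z (s m))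
    · funext a b
      exact propext ((h1 i).2 (z a) (z b))

end Pool.Agent.H54.AR.CABR
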